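import Pool.Agent.H13.HP.Defs
import Pool.Agent.H21.HE.CL

/-!
# Module CL (characteristic different from 2): the class group relation

Adapted from `Pool/Agent/H21/HE/CL.lean`.
-/

open Polynomial nonZeroDivisors

namespace Pool.Agent.H33.HP.CL

open Pool.Agent.H62.HE hiding T_CL
open Pool.Agent.H13.HP

universe u

theorem II_mul {k : Type u} [Field k] (h2 : (2 : k) ≠ 0) (f u w : k[X]) (h : u ∣ w ^ 2 - f)
    (hc : IsCoprime u w) : II f u w * II f u (-w) = Ideal.span {(⟨u, 0⟩ : HR k f)} := by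
  rw [II, II, Ideal.span_pair_mul_span_pair, neg_neg]
  apply le_antisymm
  · rw [Ideal.span_le]
    obtain ⟨q, hq⟩ := h
    rintro z (rfl | rfl | rfl | rfl)
    · exact Ideal.mem_span_singleton.2 ⟨_, rfl⟩
    · exact Ideal.mem_span_singleton.2 ⟨_, rfl⟩
    · exact Ideal.mem_span_singleton.2 ⟨_, mul_comm _ _⟩
    · refine Ideal.mem_span_singleton.2 ⟨⟨-q, 0⟩, ?_⟩
      ext1
      · simp
        linear_combination -hq
      · simp
  · rw [Ideal.span_singleton_le_iff_mem]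
    obtain ⟨a, b, hab⟩ := hc
    have e : (⟨u, 0⟩ : HR k f) = ⟨a, 0⟩ * (⟨u, 0⟩ * ⟨u, 0⟩) +
        ⟨C 2⁻¹ * b, 0⟩ * (⟨u, 0⟩ * ⟨w, 1⟩) - ⟨C 2⁻¹ * b, 0⟩ * (⟨-w, 1⟩ * ⟨u, 0⟩) := by
      have h2 : (C 2⁻¹ : k[X]) * 2 = 1 := by
        rw [show (2 : k[X]) = C 2 by rfl, ← C_mul, inv_mul_cancel₀ h2, C_1]
      ext1
      · simp
        linear_combination (-u) * hab + (-(b * w * u)) * h2
      · simp
    suffices H : ∀ z : HR k f, z = ⟨u, 0⟩ → z ∈ Ideal.span {(⟨u, 0⟩ : HR k f) * ⟨u, 0⟩,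
        ⟨u, 0⟩ * ⟨w, 1⟩, ⟨-w, 1⟩ * ⟨u, 0⟩, ⟨-w, 1⟩ * ⟨w, 1⟩} from H _ rfl
    intro z hz
    rw [show z = _ from hz.trans e]
    refine sub_mem (add_mem ?_ ?_) ?_
    · exact Ideal.mul_mem_left _ _ (Ideal.subset_span (Or.inl rfl))
    · exact Ideal.mul_mem_left _ _ (Ideal.subset_span (Or.inr (Or.inl rfl)))
    · exact Ideal.mul_mem_left _ _ (Ideal.subset_span (Or.inr (Or.inr (Or.inl rfl))))

/-- the ideal `(u, y - w)` is invertible -/
theorem II_unit {k : Type u} [Field k] (h2k : (2 : k) ≠ 0) (f u w : k[X]) [IsDomain (HR k f)]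
    (hu : u ≠ 0) (h : u ∣ w ^ 2 - f) (hc : IsCoprime u w) :
    ∃ U : (FractionalIdeal (HR k f)⁰ (FractionRing (HR k f)))ˣ,
      (U : FractionalIdeal (HR k f)⁰ (FractionRing (HR k f))) = II f u w := by
  have h0 : (⟨u, 0⟩ : HR k f) ≠ 0 := by
    intro h0
    exact hu (congrArg QuadraticAlgebra.re h0)
  have h1 : algebraMap (HR k f) (FractionRing (HR k f)) ⟨u, 0⟩ ≠ 0 :=
    (map_ne_zero_iff _ (IsFractionRing.injective _ _)).2 h0
  have h2 : ((II f u w : Ideal (HR k f)) : FractionalIdeal (HR k f)⁰ (FractionRing (HR k f))) *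
      (((II f u (-w) : Ideal (HR k f)) : FractionalIdeal (HR k f)⁰ (FractionRing (HR k f))) *
        FractionalIdeal.spanSingleton (HR k f)⁰
          (algebraMap (HR k f) (FractionRing (HR k f)) ⟨u, 0⟩)⁻¹) = 1 := by
    rw [← mul_assoc, ← FractionalIdeal.coeIdeal_mul, II_mul h2k f u w h hc,
      FractionalIdeal.coeIdeal_span_singleton, FractionalIdeal.spanSingleton_mul_spanSingleton,
      mul_inv_cancel₀ h1, FractionalIdeal.spanSingleton_one]
  exact ⟨Units.mkOfMulEqOne _ _ h2, rfl⟩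

open scoped TensorProduct in
theorem cl : T_CL.{u} := by
  classical
  intro K L _ _ φ f _ _ h2K hfin
  have h2L : (2 : L) ≠ 0 := by
    intro h
    apply h2K
    apply φ.injective
    rw [map_ofNat, map_zero]
    exact h
  obtain ⟨T0, hT0⟩ := Pool.Agent.H23.exists_finset_of_finite _ hfin
  have hrep : ∀ t : Additive (ClassGroup (HR K f)), ∃ (U : (FractionalIdeal (HR K f)⁰
      (FractionRing (HR K f)))ˣ) (J : Ideal (HR K f)),
      (U : FractionalIdeal (HR K f)⁰ (FractionRing (HR K f))) = J ∧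
      ClassGroup.mk (FractionRing (HR K f)) U = Additive.toMul t :=
    fun t => exists_rep (Additive.toMul t)
  choose U J hUJ hU using hrep
  have hnoeth : IsNoetherianRing (HR K f) := IsNoetherianRing.of_finite K[X] (HR K f)
  have hs : ∀ t, ∃ s : Finset (HR K f), Ideal.span (s : Set (HR K f)) = J t :=
    fun t => hnoeth.noetherian (J t)
  choose s hs using hs
  refine ⟨T0.biUnion fun t => (s t).biUnion fun g => g.re.coeffs ∪ g.im.coeffs,
    fun u w hu hdvd hcop τ hT hf huτ hwτ => ?_⟩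
  have hΨf : f.map ((τ : L →+* L).comp φ) = f.map φ := by
    ext i
    simp only [coeff_map, RingHom.comp_apply]
    exact hf i
  let Φ := mapHR φ f (f.map φ) rfl
  let Ψ := mapHR ((τ : L →+* L).comp φ) f (f.map φ) hΨf
  have hΦi : Function.Injective Φ := mapHR_injective _ _ _ _
  have hΨi : Function.Injective Ψ := mapHR_injective _ _ _ _
  have hmem : ∀ t ∈ (T0 : Set (Additive (ClassGroup (HR K f)))),
      FxC Φ Ψ (Additive.toMul t) := by
    intro t ht
    refine ⟨U t, J t, hUJ t, hU t, 1, 1, one_ne_zero, one_ne_zero, ?_⟩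
    congr 1
    rw [← hs t, Ideal.map_span, Ideal.map_span]
    congr 1
    apply Set.image_congr
    intro g hg
    apply mapHR_congr
    intro c hc
    exact hT c (Finset.mem_biUnion.2 ⟨t, ht, Finset.mem_biUnion.2 ⟨g, hg, Finset.mem_union.2 hc⟩⟩)
  obtain ⟨UI, hUI⟩ := II_unit h2K f u w hu hdvd hcop
  obtain ⟨N, hN0, hN⟩ := hT0 (Additive.ofMul (ClassGroup.mk _ UI))
  have h1 := fxC_closure hΦi hΨi _ hmem _ hN
  rw [toMul_nsmul, toMul_ofMul] at h1
  have h2 := fx_pow_of_mem hΦi hΨi UI (II f u w) hUI N h1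
  have e1 : (II f u w).map Φ = II (f.map φ) (u.map φ) (w.map φ) :=
    II_map φ f _ rfl u w _ _ rfl rfl
  have e2 : (II f u w).map Ψ = II (f.map φ) (u.map φ) (-(w.map φ)) := by
    refine II_map _ f _ hΨf u w _ _ ?_ ?_
    · ext i
      simp only [coeff_map, RingHom.comp_apply]
      exact huτ i
    · ext i
      simp only [coeff_map, RingHom.comp_apply, coeff_neg]
      exact hwτ i
  have e3 : (II f u w).map Φ * (II f u w).map Ψ =
      Ideal.span {(⟨u.map φ, 0⟩ : HR L (f.map φ))} := by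
    rw [e1, e2]
    refine II_mul h2L _ _ _ ?_ ?_
    · have := Polynomial.map_dvd φ hdvd
      simpa using this
    · exact hcop.map (Polynomial.mapRingHom φ)
  have h3 := principal_of (II f u w) N h2 _ e3
  rw [e1] at h3
  exact ⟨2 * N, by omega, h3⟩

end Pool.Agent.H33.HP.CL
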