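import Pool.Agent.H13.HP.Defs
import Pool.Agent.H23.NonSq

/-!
# Module TAU (characteristic different from 2): the automorphism and its quadratic character

Adapted from `Pool/Agent/H62/HE/PTSa.lean`.
-/

open Polynomial

namespace Pool.Agent.H33.HP.TAU

open Pool.Agent.H13.HP

universe u

lemma exists_tau {M Ω : Type u} [Field M] [Field Ω] [Algebra M Ω] [IsAlgClosed Ω]
    (g0 : M) (hsq : ¬ IsSquare g0) : ∃ τ : Ω ≃ₐ[M] Ω,
      ∀ r : Ω, r ^ 2 = algebraMap M Ω g0 → τ r = - r := by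
  classical
  obtain ⟨s, hs⟩ := exists_isTranscendenceBasis M Ω
  set N := IntermediateField.adjoin M (Set.range ((↑) : s → Ω)) with hN
  have halg : Algebra.IsAlgebraic N Ω := hs.isAlgebraic_field
  have hcl : IsAlgClosure N Ω := ⟨inferInstance, halg⟩
  have hnor : Normal N Ω := inferInstance
  obtain ⟨r0, hr0⟩ := IsAlgClosed.exists_pow_nat_eq (algebraMap M Ω g0) (n := 2) two_pos
  have hnsqN : ¬ IsSquare (algebraMap M N g0) := fun h =>
    hsq (Pool.Agent.H23.isSquare_of_isSquare_adjoin hs.1 h)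
  have hg0 : g0 ≠ 0 := by
    rintro rfl
    exact hsq ⟨0, by simp⟩
  have hr0' : r0 ^ 2 = algebraMap N Ω (algebraMap M N g0) := by
    rw [hr0]; rfl
  have hirr : Irreducible (X ^ 2 - C (algebraMap M N g0) : N[X]) := by
    apply X_pow_sub_C_irreducible_of_prime Nat.prime_two
    intro b hb
    exact hnsqN ⟨b, by rw [← hb]; ring⟩
  have hmin : ∀ r : Ω, r ^ 2 = algebraMap N Ω (algebraMap M N g0) →
      minpoly N r = X ^ 2 - C (algebraMap M N g0) := by
    intro r hr
    refine (minpoly.eq_of_irreducible_of_monic hirr ?_ (monic_X_pow_sub_C _ two_ne_zero)).symm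
    simp [hr]
  have hneg : (-r0) ^ 2 = algebraMap N Ω (algebraMap M N g0) := by rw [neg_sq, hr0']
  obtain ⟨τ, hτ⟩ := (Normal.minpoly_eq_iff_mem_orbit (F := N) (E := Ω) (x := -r0) (y := r0)).1
    ((hmin _ hneg).trans (hmin _ hr0').symm)
  have hτ' : τ r0 = -r0 := hτ
  refine ⟨τ.restrictScalars M, fun r hr => ?_⟩
  change τ r = - r
  rcases sq_eq_sq_iff_eq_or_eq_neg.1 (hr.trans hr0.symm) with h | h
  · rw [h, hτ']
  · rw [h, map_neg, hτ']

/-- the quadratic character of `M` defined by `τ` -/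
lemma exists_psi {M Ω : Type u} [Field M] [Field Ω] [Algebra M Ω] [IsAlgClosed Ω]
    (h2 : (2 : Ω) ≠ 0) (τ : Ω ≃ₐ[M] Ω) :
    ∃ ψ : Mˣ →* ℤˣ, ∀ (x : Mˣ) (r : Ω), r ^ 2 = algebraMap M Ω x →
      τ r = (((ψ x : ℤˣ) : ℤ) : Ω) * r := by
  classical
  have hsq : ∀ x : Mˣ, ∃ r : Ω, r ^ 2 = algebraMap M Ω x := fun x =>
    IsAlgClosed.exists_pow_nat_eq _ two_pos
  choose r hr using hsq
  have hr0 : ∀ x : Mˣ, ∀ r : Ω, r ^ 2 = algebraMap M Ω x → r ≠ 0 := by
    rintro x r h1 rfl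
    apply x.ne_zero
    apply (algebraMap M Ω).injective
    rw [← h1, map_zero]; ring
  have hpm : ∀ x : Mˣ, τ (r x) = r x ∨ τ (r x) = - r x := by
    intro x
    apply sq_eq_sq_iff_eq_or_eq_neg.1
    rw [← map_pow, hr, τ.commutes]
  let e : Mˣ → ℤˣ := fun x => if τ (r x) = r x then 1 else -1
  have he : ∀ (x : Mˣ) (t : Ω), t ^ 2 = algebraMap M Ω x → τ t = (((e x : ℤˣ) : ℤ) : Ω) * t := by
    intro x t ht
    have h1 : τ (r x) = (((e x : ℤˣ) : ℤ) : Ω) * r x := by
      by_cases h : τ (r x) = r x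
      · simp [e, h]
      · simp only [e, if_neg h]
        rcases hpm x with h2 | h2
        · exact absurd h2 h
        · rw [h2]; simp
    rcases sq_eq_sq_iff_eq_or_eq_neg.1 (ht.trans (hr x).symm) with h | h
    · rw [h, h1]
    · rw [h, map_neg, h1]; ring
  have h11 : (1 : Ω) ≠ -1 := by
    intro h
    apply h2
    linear_combination h
  have huniq : ∀ (a b : ℤˣ) (t : Ω), t ≠ 0 → (((a : ℤˣ) : ℤ) : Ω) * t = (((b : ℤˣ) : ℤ) : Ω) * t →
      a = b := by
    intro a b t ht h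
    have h1 := mul_right_cancel₀ ht h
    rcases Int.units_eq_one_or a with rfl | rfl <;> rcases Int.units_eq_one_or b with rfl | rfl
    · rfl
    · exfalso; apply h11; simpa using h1
    · exfalso; apply h11; simpa using h1.symm
    · rfl
  refine ⟨{ toFun := e, map_one' := ?_, map_mul' := ?_ }, he⟩
  · apply huniq _ _ (1 : Ω) one_ne_zero
    rw [← he 1 1 (by simp)]
    simp
  · intro x y
    have h1 : (r x * r y) ^ 2 = algebraMap M Ω ((x * y : Mˣ) : M) := by
      rw [mul_pow, hr, hr]; simp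
    apply huniq _ _ (r x * r y) (hr0 _ _ h1)
    rw [← he _ _ h1, map_mul, he x _ (hr x), he y _ (hr y)]
    push_cast
    ring

theorem tau : T_TAU.{u} := by
  intro M Ω _ _ _ _ g0 h2 hsq
  have h2Ω : (2 : Ω) ≠ 0 := by
    intro h
    apply h2
    apply (algebraMap M Ω).injective
    rw [map_ofNat, map_zero]
    exact h
  obtain ⟨τ, hτ⟩ := exists_tau (Ω := Ω) g0 hsq
  obtain ⟨ψ, hψ⟩ := exists_psi h2Ω τ
  refine ⟨τ, ψ, hψ, fun x hx => ?_⟩
  obtain ⟨r, hr⟩ := IsAlgClosed.exists_pow_nat_eq (algebraMap M Ω x) (n := 2) two_pos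
  have hr0 : r ≠ 0 := by
    rintro rfl
    apply x.ne_zero
    apply (algebraMap M Ω).injective
    rw [← hr, map_zero]; ring
  have h1 := hψ x r hr
  have h3 := hτ r (by rw [hr, hx])
  rcases Int.units_eq_one_or (ψ x) with h | h
  · exfalso
    rw [h, h3] at h1
    have h4 : (2 : Ω) * r = 0 := by
      have : -r = r := by simpa using h1
      linear_combination (-1 : Ω) * this
    rcases mul_eq_zero.1 h4 with h5 | h5
    · exact h2Ω h5
    · exact hr0 h5
  · exact h

end Pool.Agent.H33.HP.TAU
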